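import Pool.Agent.H80.JD.Basic

/-!
# Module VV of the board `jd_modules`
-/

set_option autoImplicit false

namespace Pool.Agent.H59.JD

open Finset Filter Topology Pool.Agent.H80.JD

/-- the number of rows with a large sum -/
theorem card_gt (k : ℕ) (K : ℝ) :
    (Nat.card {g : Fin k → Bool // K < |((ip g (zero k) : ℤ) : ℝ)|} : ℝ) =
      (1 - pr k K) * 2 ^ k := by
  have h1 := card_add_card_not (fun g : Fin k → Bool => |((ip g (zero k) : ℤ) : ℝ)| ≤ K)
  have h2 : Nat.card {g : Fin k → Bool // ¬ |((ip g (zero k) : ℤ) : ℝ)| ≤ K} =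
      Nat.card {g : Fin k → Bool // K < |((ip g (zero k) : ℤ) : ℝ)|} :=
    Nat.card_congr (Equiv.subtypeEquivRight fun g => not_le)
  rw [h2, card_rows] at h1
  have h3 : (Nat.card {g : Fin k → Bool // |((ip g (zero k) : ℤ) : ℝ)| ≤ K} : ℝ) +
      (Nat.card {g : Fin k → Bool // K < |((ip g (zero k) : ℤ) : ℝ)|} : ℝ) = 2 ^ k := by
    exact_mod_cast h1
  have h4 : (2 : ℝ) ^ k ≠ 0 := by positivity
  rw [pr, sub_mul, div_mul_cancel₀ _ h4]
  linarith

theorem min_abs {a b K : ℝ} (h1 : K < |a + b|) (h2 : K < |a - b|) : K < |a| ∨ K < |b| := by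
  by_contra hcon
  push Not at hcon
  obtain ⟨h3, h4⟩ := hcon
  rw [abs_le] at h3 h4
  rcases lt_abs.1 h1 with h | h <;> rcases lt_abs.1 h2 with h' | h' <;> linarith

theorem card_or {α : Type} [Finite α] (P Q : α → Prop) :
    Nat.card {x // P x ∨ Q x} ≤ Nat.card {x // P x} + Nat.card {x // Q x} := by
  classical
  have := Fintype.ofFinite α
  rw [Nat.card_eq_fintype_card, Nat.card_eq_fintype_card, Nat.card_eq_fintype_card]
  exact Fintype.card_subtype_or P Q

theorem vv (hSP : T_SP) (hLV : T_LV) : T_VV := by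
  intro n M D D' K h1 h2 hK
  obtain ⟨A, B, hAB, hcard⟩ := hSP n (hammingDist D D') (xr D D') (hammingDist_xr_zero D D')
  set d := hammingDist D D' with hd
  have hdn : d ≤ n := by omega
  -- translation
  have e1 : Nat.card {h : Fin n → Bool // K < |((ip h D : ℤ) : ℝ)| ∧ K < |((ip h D' : ℤ) : ℝ)|} ≤
      Nat.card {g : Fin n → Bool // K < |((A g : ℤ) : ℝ)| ∨ K < |((B g : ℤ) : ℝ)|} := by
    refine Nat.card_le_card_of_injective (fun h => ⟨xr D h.1, ?_⟩) ?_
    · obtain ⟨h, h3, h4⟩ := h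
      have i1 : ip h D = A (xr D h) + B (xr D h) := by
        rw [← (hAB (xr D h)).1, ip_eq_ip_xr_zero, xr_comm]
      have i2 : ip h D' = A (xr D h) - B (xr D h) := by
        rw [← (hAB (xr D h)).2, ip_xr, xr_comm (xr D h) D, xr_xr]
      rw [i1] at h3
      rw [i2] at h4
      push_cast at h3 h4
      exact min_abs h3 h4
    · intro h h' heq
      exact Subtype.ext (xr_injective D (congrArg Subtype.val heq))
  have e2 := card_or (fun g : Fin n → Bool => K < |((A g : ℤ) : ℝ)|)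
    (fun g => K < |((B g : ℤ) : ℝ)|)
  have e3 : (Nat.card {g : Fin n → Bool // K < |((A g : ℤ) : ℝ)|} : ℝ) =
      (1 - pr (n - d) K) * 2 ^ n := by
    have h3 := hcard (fun v => K < |((v : ℤ) : ℝ)|) (fun _ => True)
    have h4 : Nat.card {h : Fin n → Bool // K < |((A h : ℤ) : ℝ)| ∧ True} =
        Nat.card {h : Fin n → Bool // K < |((A h : ℤ) : ℝ)|} :=
      Nat.card_congr (Equiv.subtypeEquivRight fun g => ⟨fun h => h.1, fun h => ⟨h, trivial⟩⟩)
    have h5 : Nat.card {g : Fin d → Bool // True} = 2 ^ d := by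
      rw [← card_rows d]
      exact Nat.card_congr (Equiv.subtypeUnivEquiv fun _ => trivial)
    rw [h4, h5] at h3
    rw [h3]
    push_cast
    rw [card_gt, mul_assoc, ← pow_add, Nat.sub_add_cancel hdn]
  have e4 : (Nat.card {g : Fin n → Bool // K < |((B g : ℤ) : ℝ)|} : ℝ) =
      (1 - pr d K) * 2 ^ n := by
    have h3 := hcard (fun _ => True) (fun v => K < |((v : ℤ) : ℝ)|)
    have h4 : Nat.card {h : Fin n → Bool // True ∧ K < |((B h : ℤ) : ℝ)|} =
        Nat.card {h : Fin n → Bool // K < |((B h : ℤ) : ℝ)|} :=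
      Nat.card_congr (Equiv.subtypeEquivRight fun g => ⟨fun h => h.2, fun h => ⟨trivial, h⟩⟩)
    have h5 : Nat.card {g : Fin (n - d) → Bool // True} = 2 ^ (n - d) := by
      rw [← card_rows (n - d)]
      exact Nat.card_congr (Equiv.subtypeUnivEquiv fun _ => trivial)
    rw [h4, h5] at h3
    rw [h3]
    push_cast
    rw [card_gt]
    have h6 : (2 : ℝ) ^ n = 2 ^ (n - d) * 2 ^ d := by
      rw [← pow_add, Nat.sub_add_cancel hdn]
    rw [h6]
    ring
  have l1 : 1 - pr (n - d) K ≤ 2 * (1 - pr (n - M) K) := by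
    have := hLV (n - d) (d - M) K
    rwa [show n - d + (d - M) = n - M by omega] at this
  have l2 : 1 - pr d K ≤ 2 * (1 - pr (n - M) K) := by
    have := hLV d (n - M - d) K
    rwa [show d + (n - M - d) = n - M by omega] at this
  have e5 : (Nat.card {h : Fin n → Bool //
      K < |((ip h D : ℤ) : ℝ)| ∧ K < |((ip h D' : ℤ) : ℝ)|} : ℝ) ≤
      (Nat.card {g : Fin n → Bool // K < |((A g : ℤ) : ℝ)|} : ℝ) +
        (Nat.card {g : Fin n → Bool // K < |((B g : ℤ) : ℝ)|} : ℝ) := by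
    exact_mod_cast e1.trans e2
  have h2n : (0 : ℝ) < 2 ^ n := by positivity
  calc (Nat.card {h : Fin n → Bool //
      K < |((ip h D : ℤ) : ℝ)| ∧ K < |((ip h D' : ℤ) : ℝ)|} : ℝ)
      ≤ (1 - pr (n - d) K) * 2 ^ n + (1 - pr d K) * 2 ^ n := by rw [← e3, ← e4]; exact e5
    _ ≤ 2 * (1 - pr (n - M) K) * 2 ^ n + 2 * (1 - pr (n - M) K) * 2 ^ n :=
        add_le_add (mul_le_mul_of_nonneg_right l1 h2n.le)
          (mul_le_mul_of_nonneg_right l2 h2n.le)
    _ = 4 * (1 - pr (n - M) K) * 2 ^ n := by ring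

end Pool.Agent.H59.JD
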